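import Pool.Agent.W680.WH.Stm

/-!
# WHH-KER: the kernel bound
-/

set_option autoImplicit false

namespace Pool.Agent.W503.WH.Ker

open Pool.Agent.W680.WH

theorem om_nat (m : ℤ) : om m = om (m.natAbs : ℤ) := by
  unfold om
  rw [Int.natAbs_natCast]

theorem mono {a b : ℕ} (h : a ≤ b) : om (a : ℤ) ≤ om (b : ℤ) := by
  induction b, h using Nat.le_induction with
  | base => exact le_rfl
  | succ b _ ih =>
    refine ih.trans ?_
    have h1 := om_succ_nat b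
    push_cast
    rw [h1]
    have hp := om_pos (b : ℤ)
    have h2 : (1 : ℝ) ≤ (4 * (b : ℝ) + 3) / (4 * (b : ℝ) + 1) := by
      rw [le_div_iff₀ (by positivity)]; linarith
    nlinarith

theorem grow {a b : ℕ} (h : a ≤ b) :
    om (b : ℤ) ^ 2 * a ≤ om (a : ℤ) ^ 2 * b := by
  induction b, h using Nat.le_induction with
  | base => exact le_rfl
  | succ b _ ih =>
    have h1 := om_succ_nat b
    push_cast
    rw [h1]
    have hp := om_pos (a : ℤ)
    have hb : (0 : ℝ) ≤ b := Nat.cast_nonneg b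
    have h2 : (b : ℝ) * ((4 * (b : ℝ) + 3) / (4 * (b : ℝ) + 1)) ^ 2 ≤ b + 1 := by
      rw [div_pow, mul_div_assoc', div_le_iff₀ (by positivity)]
      nlinarith
    calc (om (b : ℤ) * ((4 * (b : ℝ) + 3) / (4 * (b : ℝ) + 1))) ^ 2 * a
        = (om (b : ℤ) ^ 2 * a) * ((4 * (b : ℝ) + 3) / (4 * (b : ℝ) + 1)) ^ 2 := by ring
      _ ≤ (om (a : ℤ) ^ 2 * b) * ((4 * (b : ℝ) + 3) / (4 * (b : ℝ) + 1)) ^ 2 :=
          mul_le_mul_of_nonneg_right ih (by positivity)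
      _ = om (a : ℤ) ^ 2 * (b * ((4 * (b : ℝ) + 3) / (4 * (b : ℝ) + 1)) ^ 2) := by ring
      _ ≤ om (a : ℤ) ^ 2 * (b + 1) := mul_le_mul_of_nonneg_left h2 (by positivity)

theorem grow9 {a b : ℕ} (h : a ≤ b) :
    om (b : ℤ) ^ 2 * (1 + a) ≤ 9 * om (a : ℤ) ^ 2 * (1 + b) := by
  have hpa := om_pos (a : ℤ)
  have hb : (0 : ℝ) ≤ b := Nat.cast_nonneg b
  rcases Nat.eq_zero_or_pos a with rfl | ha
  · have h0 : om ((0 : ℕ) : ℤ) = 1 := by simpa using om_zero
    rw [h0]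
    rcases Nat.eq_zero_or_pos b with rfl | hb'
    · rw [h0]; norm_num
    · have h1 := grow (a := 1) (b := b) hb'
      have h2 : om ((1 : ℕ) : ℤ) = 3 := by
        have := om_succ_nat 0
        simp only [Nat.cast_zero, zero_add, mul_zero, om_zero] at this
        norm_num at this
        simpa using this
      rw [h2] at h1
      push_cast at h1 ⊢
      linarith
  · have h1 := grow h
    have ha' : (1 : ℝ) ≤ a := by exact_mod_cast ha
    have hpb := om_pos (b : ℤ)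
    nlinarith [sq_nonneg (om (b : ℤ)), sq_nonneg (om (a : ℤ)), mul_nonneg (sq_nonneg (om (b : ℤ)))
      (sub_nonneg.2 ha'), mul_nonneg (sq_nonneg (om (a : ℤ))) hb]

theorem grow1 {a b : ℕ} (ha : 1 ≤ a) (h : a ≤ b) :
    om (b : ℤ) / om (a : ℤ) ≤ (1 + b) / (1 + a) := by
  have hpa := om_pos (a : ℤ)
  have ha' : (1 : ℝ) ≤ a := by exact_mod_cast ha
  have hab : (a : ℝ) ≤ b := by exact_mod_cast h
  have h1 := grow h
  have h2 : (om (b : ℤ) / om (a : ℤ)) ^ 2 ≤ b / a := by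
    rw [div_pow, div_le_div_iff₀ (by positivity) (by linarith)]
    linarith
  have h3 : om (b : ℤ) / om (a : ℤ) ≤ (b / a + 1) / 2 := by
    nlinarith [sq_nonneg (om (b : ℤ) / om (a : ℤ) - 1)]
  refine h3.trans ?_
  rw [div_add_one (by linarith), div_div, div_le_div_iff₀ (by linarith) (by linarith)]
  nlinarith [mul_nonneg (sub_nonneg.2 ha') (sub_nonneg.2 hab)]

theorem key {r s y : ℝ} (hr : 1 ≤ r) (hrs : r ≤ s) (hy : 1 ≤ y) (h4 : y ^ 4 * r ^ 4 ≤ 9 * s ^ 4)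
    (h1 : s ^ 4 < 2 * r ^ 4 → (y ^ 2 - 1) * r ^ 4 ≤ s ^ 4 - r ^ 4) :
    (y - 1 / y) * (s ^ 3 * r) ≤ 4 * (s ^ 4 - r ^ 4) := by
  have hr0 : 0 < r := by linarith
  have hs0 : 0 < s := by linarith
  have hy0 : 0 < y := by linarith
  rcases lt_or_ge (s ^ 4) (2 * r ^ 4) with hc | hc
  · have h2 := h1 hc
    have h3 : y - 1 / y ≤ y ^ 2 - 1 := by
      have : y ^ 2 - 1 - (y - 1 / y) = (y ^ 2 - 1) * (y - 1) / y := by
        field_simp
      have h5 : 0 ≤ (y ^ 2 - 1) * (y - 1) / y := by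
        apply div_nonneg _ hy0.le
        apply mul_nonneg <;> nlinarith
      linarith
    have h5 : s ^ 3 ≤ 4 * r ^ 3 := by
      have : s ≤ 2 * r := by
        by_contra hcon
        have hlt : 2 * r < s := lt_of_not_ge hcon
        have : (2 * r) ^ 4 < s ^ 4 := pow_lt_pow_left₀ hlt (by positivity) (by norm_num)
        have h16 : 0 < r ^ 4 := by positivity
        nlinarith
      have h6 : s ^ 3 * r ≤ 4 * r ^ 3 * r := by
        have : s ^ 3 * r ≤ s ^ 3 * s := mul_le_mul_of_nonneg_left hrs (by positivity)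
        have h7 : s ^ 3 * s = s ^ 4 := by ring
        have h8 : 4 * r ^ 3 * r = 4 * r ^ 4 := by ring
        have h16 : 0 < r ^ 4 := by positivity
        nlinarith
      exact le_of_mul_le_mul_right h6 hr0
    calc (y - 1 / y) * (s ^ 3 * r) ≤ (y ^ 2 - 1) * (s ^ 3 * r) :=
          mul_le_mul_of_nonneg_right h3 (by positivity)
      _ ≤ (y ^ 2 - 1) * (4 * r ^ 3 * r) := by
          apply mul_le_mul_of_nonneg_left _ (by nlinarith)
          exact mul_le_mul_of_nonneg_right h5 hr0.le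
      _ = 4 * ((y ^ 2 - 1) * r ^ 4) := by ring
      _ ≤ 4 * (s ^ 4 - r ^ 4) := by linarith
  · have h2 : y * r ≤ 2 * s := by
      have : (y * r) ^ 4 ≤ (2 * s) ^ 4 := by
        have : 0 < s ^ 4 := by positivity
        nlinarith
      exact le_of_pow_le_pow_left₀ (by norm_num) (by positivity) this
    have h3 : y - 1 / y ≤ y := by
      have : 0 < 1 / y := by positivity
      linarith
    calc (y - 1 / y) * (s ^ 3 * r) ≤ y * (s ^ 3 * r) :=
          mul_le_mul_of_nonneg_right h3 (by positivity)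
      _ = (y * r) * s ^ 3 := by ring
      _ ≤ (2 * s) * s ^ 3 := mul_le_mul_of_nonneg_right h2 (by positivity)
      _ = 2 * s ^ 4 := by ring
      _ ≤ 4 * (s ^ 4 - r ^ 4) := by linarith

theorem ker : S_KER := by
  refine ⟨4, fun m n hmn hle => ?_⟩
  obtain ⟨a, ha⟩ : ∃ a, a = m.natAbs := ⟨_, rfl⟩
  obtain ⟨b, hb⟩ : ∃ b, b = n.natAbs := ⟨_, rfl⟩
  rw [om_nat m, om_nat n, ← ha, ← hb]
  rw [← ha, ← hb] at hle
  have hpa := om_pos (a : ℤ)
  have hpb := om_pos (b : ℤ)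
  have hA : (0 : ℝ) < 1 + (a : ℝ) := by positivity
  have hB : (0 : ℝ) < 1 + (b : ℝ) := by positivity
  have hab : (a : ℝ) ≤ b := by exact_mod_cast hle
  have hD0 : (0 : ℝ) < |(m : ℝ) - n| := by
    rw [abs_pos, sub_ne_zero]
    exact_mod_cast hmn
  have hD : (b : ℝ) - a ≤ |(m : ℝ) - n| := by
    have h1 : (b : ℤ) - a ≤ |m - n| := by
      rcases abs_cases (m - n) with ⟨h, _⟩ | ⟨h, _⟩ <;> rw [h] <;> omega
    have h2 : (((b : ℤ) - a : ℤ) : ℝ) ≤ ((|m - n| : ℤ) : ℝ) := by exact_mod_cast h1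
    push_cast at h2
    exact h2
  obtain ⟨r, hr⟩ : ∃ r : ℝ, r = (1 + (a : ℝ)) ^ ((1 : ℝ) / 4) := ⟨_, rfl⟩
  obtain ⟨s, hs⟩ : ∃ s : ℝ, s = (1 + (b : ℝ)) ^ ((1 : ℝ) / 4) := ⟨_, rfl⟩
  have hr4 : r ^ 4 = 1 + (a : ℝ) := by
    rw [hr, ← Real.rpow_natCast, ← Real.rpow_mul hA.le]
    norm_num
  have hs4 : s ^ 4 = 1 + (b : ℝ) := by
    rw [hs, ← Real.rpow_natCast, ← Real.rpow_mul hB.le]
    norm_num
  have hr1 : 1 ≤ r := by
    rw [hr]
    exact Real.one_le_rpow (by linarith [Nat.cast_nonneg (α := ℝ) a]) (by norm_num)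
  have hrs : r ≤ s := by
    rw [hr, hs]
    exact Real.rpow_le_rpow hA.le (by linarith) (by norm_num)
  have hr0 : 0 < r := by linarith
  have hs0 : 0 < s := by linarith
  have hR : 4 * (1 + (b : ℝ)) ^ (-(3 / 4) : ℝ) * (1 + (a : ℝ)) ^ (-(1 / 4) : ℝ) =
      4 / (s ^ 3 * r) := by
    have e1 : (1 + (b : ℝ)) ^ (-(3 / 4) : ℝ) = (s ^ 3)⁻¹ := by
      rw [Real.rpow_neg hB.le, hs, ← Real.rpow_natCast, ← Real.rpow_mul hB.le]
      norm_num
    have e2 : (1 + (a : ℝ)) ^ (-(1 / 4) : ℝ) = r⁻¹ := by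
      rw [Real.rpow_neg hA.le, hr]
    rw [e1, e2]
    field_simp
  rw [hR]
  obtain ⟨y, hy⟩ : ∃ y : ℝ, y = Real.sqrt (om (b : ℤ) / om (a : ℤ)) := ⟨_, rfl⟩
  have hρ : 0 < om (b : ℤ) / om (a : ℤ) := div_pos hpb hpa
  have hy2 : y ^ 2 = om (b : ℤ) / om (a : ℤ) := by rw [hy, Real.sq_sqrt hρ.le]
  have hy1 : 1 ≤ y := by
    rw [hy, Real.one_le_sqrt, le_div_iff₀ hpa, one_mul]
    exact mono hle
  have hy0 : 0 < y := by linarith
  have hinv : Real.sqrt (om (a : ℤ) / om (b : ℤ)) = 1 / y := by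
    rw [hy, ← inv_div (om (b : ℤ)) (om (a : ℤ)), Real.sqrt_inv, one_div]
  rw [hinv, ← hy]
  have habs : |1 / y - y| = y - 1 / y := by
    rw [abs_sub_comm, abs_of_nonneg]
    have : 1 / y ≤ 1 := by
      rw [div_le_one hy0]
      exact hy1
    linarith
  rw [habs]
  have h4 : y ^ 4 * r ^ 4 ≤ 9 * s ^ 4 := by
    have e1 : y ^ 4 = (y ^ 2) ^ 2 := by ring
    rw [e1, hy2, hr4, hs4, div_pow, div_mul_eq_mul_div, div_le_iff₀ (by positivity)]
    have := grow9 hle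
    linarith
  have h1 : s ^ 4 < 2 * r ^ 4 → (y ^ 2 - 1) * r ^ 4 ≤ s ^ 4 - r ^ 4 := by
    intro hlt
    rw [hr4, hs4] at *
    rcases Nat.eq_zero_or_pos a with h0 | h0
    · have hb0 : b = 0 := by
        rw [h0] at hlt
        by_contra hne
        have : (1 : ℝ) ≤ b := by exact_mod_cast Nat.one_le_iff_ne_zero.2 hne
        push_cast at hlt
        linarith
      rw [hy2, h0, hb0, div_self (by rw [h0] at hpa; exact hpa.ne')]
      simp
    · have h5 := grow1 h0 hle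
      rw [hy2]
      rw [le_div_iff₀ hA] at h5
      linarith
  have hk := key hr1 hrs hy1 h4 h1
  rw [div_le_div_iff₀ hD0 (by positivity)]
  refine hk.trans ?_
  rw [hr4, hs4]
  linarith

end Pool.Agent.W503.WH.Ker
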