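import Pool.Agent.W680.WH.Stm

/-!
# WHH-SGN: a continuity argument
-/

set_option autoImplicit false

namespace Pool.Agent.W503.WH.Sgn

open Pool.Agent.W680.WH Filter
open scoped ComplexConjugate InnerProductSpace

theorem R_apply (k : Circle) (f : E) (n : ℤ) : R k f n = ((k ^ n : Circle) : ℂ) * f n := by
  unfold R
  rw [wsh_apply, sub_zero]

theorem inner_R (g g' : E) (k : Circle) :
    ⟪g, R k g'⟫_ℂ = ∑' n : ℤ, ((k ^ n : Circle) : ℂ) * (g' n * conj (g n)) := by
  rw [lp.inner_eq_tsum]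
  refine tsum_congr fun n => ?_
  rw [R_apply, RCLike.inner_apply]
  ring

theorem summable_bd (g g' : E) : Summable fun n : ℤ => ‖g' n * conj (g n)‖ := by
  have h1 := E_summable g
  have h2 := E_summable g'
  refine Summable.of_nonneg_of_le (fun n => norm_nonneg _) (fun n => ?_) (h1.add h2)
  rw [norm_mul, RCLike.norm_conj]
  nlinarith [sq_nonneg (‖g n‖ - ‖g' n‖), sq_nonneg ‖g n‖, sq_nonneg ‖g' n‖]

theorem cont (g g' : E) : Continuous fun t : ℝ => (⟪g, R (Circle.exp t) g'⟫_ℂ).re := by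
  apply Complex.continuous_re.comp
  simp_rw [inner_R]
  refine continuous_tsum (fun n => ?_) (summable_bd g g') (fun n t => ?_)
  · exact (continuous_subtype_val.comp ((Circle.exp.continuous).zpow n)).mul continuous_const
  · rw [norm_mul, Circle.norm_coe, one_mul]

theorem co_mul (g : E) (n : ℤ) : g n = co g n * ((Real.sqrt (om n) : ℝ) : ℂ) := by
  unfold co
  rw [div_mul_cancel₀]
  exact Complex.ofReal_ne_zero.2 (Real.sqrt_pos.2 (om_pos n)).ne'

theorem sgn : S_SGN := by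
  intro g g' γ γ' hγ hγ0 hγ' hγ0' hg hg' hk k
  have hterm : ∀ n : ℤ, g' n * conj (g n) = ((om n * (γ n * γ' n) : ℝ) : ℂ) := by
    intro n
    rw [co_mul g n, co_mul g' n, hg n, hg' n]
    have e1 : ((-1 : ℂ) ^ n) * conj ((-1 : ℂ) ^ n) = 1 := by
      rcases Int.even_or_odd n with h | h
      · rw [h.neg_one_zpow]; simp
      · rw [h.neg_one_zpow]; simp
    have e2 : ((Real.sqrt (om n) : ℝ) : ℂ) * ((Real.sqrt (om n) : ℝ) : ℂ) = ((om n : ℝ) : ℂ) := by
      rw [← Complex.ofReal_mul, Real.mul_self_sqrt (om_pos n).le]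
    rw [map_mul, map_mul, Complex.conj_ofReal, Complex.conj_ofReal]
    calc (-1 : ℂ) ^ n * (γ' n : ℂ) * ((Real.sqrt (om n) : ℝ) : ℂ) *
          (conj ((-1 : ℂ) ^ n) * (γ n : ℂ) * ((Real.sqrt (om n) : ℝ) : ℂ))
        = (((-1 : ℂ) ^ n) * conj ((-1 : ℂ) ^ n)) *
          (((Real.sqrt (om n) : ℝ) : ℂ) * ((Real.sqrt (om n) : ℝ) : ℂ)) *
          ((γ n : ℂ) * (γ' n : ℂ)) := by ring
      _ = ((om n * (γ n * γ' n) : ℝ) : ℂ) := by
          rw [e1, e2, one_mul]
          push_cast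
          ring
  have hsum : Summable fun n : ℤ => om n * (γ n * γ' n) := by
    have h1 := summable_bd g g'
    refine h1.congr fun n => ?_
    rw [hterm n, Complex.norm_real, Real.norm_of_nonneg]
    exact mul_nonneg (om_pos n).le (mul_nonneg (hγ n) (hγ' n))
  have h0 : 0 < (⟪g, R (Circle.exp 0) g'⟫_ℂ).re := by
    rw [inner_R]
    have h1 : ∑' n : ℤ, ((Circle.exp 0 ^ n : Circle) : ℂ) * (g' n * conj (g n)) =
        ((∑' n : ℤ, om n * (γ n * γ' n) : ℝ) : ℂ) := by
      rw [Complex.ofReal_tsum]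
      refine tsum_congr fun n => ?_
      rw [hterm n, Circle.exp_zero, one_zpow, Circle.coe_one, one_mul]
    rw [h1, Complex.ofReal_re]
    exact hsum.tsum_pos (fun n => mul_nonneg (om_pos n).le (mul_nonneg (hγ n) (hγ' n))) 0
      (mul_pos (om_pos 0) (mul_pos hγ0 hγ0'))
  have hne : ∀ t : ℝ, (⟪g, R (Circle.exp t) g'⟫_ℂ).re ≠ 0 := by
    intro t ht
    have h1 := hk (Circle.exp t)
    exact h1.2 (Complex.ext ht h1.1)
  have hpos : ∀ t : ℝ, 0 < (⟪g, R (Circle.exp t) g'⟫_ℂ).re := by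
    intro t
    by_contra hcon
    obtain ⟨s, hs⟩ := mem_range_of_exists_le_of_exists_ge (cont g g')
      ⟨t, not_lt.1 hcon⟩ ⟨0, h0.le⟩
    exact hne s hs
  have := hpos (Complex.arg k)
  rwa [Circle.exp_arg] at this

end Pool.Agent.W503.WH.Sgn
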